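import Mathlib
import Pool.Agent.H.MP_ad7422_al.Main

set_option autoImplicit false

namespace Pool.Agent.Results.MP_ad7422_al.Q2

open Pool.Agent.H.MP_ad7422_al

theorem result :
    (∀ N : ℕ, ∃ (G : Type) (_ : Group G) (_ : Finite G),
      ¬ IsMulCommutative (fitting G) ∧ mz G ≤ 6 ∧ N < Nat.card G) ∧
    ¬ ∃ g : ℕ → ℕ, ∀ (G : Type) [Group G] [Finite G],
      ¬ IsMulCommutative (fitting G) → Nat.card G ≤ g (mz G) :=
  ⟨main, neg⟩

end Pool.Agent.Results.MP_ad7422_al.Q2
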